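import Pool.Agent.H32.CutRes

set_option autoImplicit false

namespace Pool.Agent.Results.MP_8d2225_pr.NoCutoff

open Filter Topology Pool.Agent.H32.Cut

noncomputable section

/-- Transition matrix of the lazy simple random walk on the Cayley graph `Cay(G,S)`: stay with
probability `1/2`, otherwise move from `x` to `x + s` with `s` uniform in `S`. -/
def lazyWalk {G : Type} [AddCommGroup G] [DecidableEq G] (S : Finset G) : Matrix G G ℝ :=
  Matrix.of fun x y => (if y = x then 1 / 2 else 0) + 1 / 2 * (if y - x ∈ S then 1 / (S.card : ℝ) else 0)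

/-- `T_mix(ε)`: the least `t` with `max_x ‖P^t(x,·) - uniform‖_TV ≤ ε`. -/
def tmix {V : Type} [Fintype V] [DecidableEq V] (P : Matrix V V ℝ) (ε : ℝ) : ℕ :=
  sInf {t : ℕ | ∀ x, 1 / 2 * ∑ y, |(P ^ t) x y - 1 / (Fintype.card V : ℝ)| ≤ ε}

/-- Second largest eigenvalue of a symmetric stochastic matrix: the largest eigenvalue having an
eigenvector orthogonal to the constants. -/
def lam2 {V : Type} [Fintype V] (P : Matrix V V ℝ) : ℝ :=
  sSup {c : ℝ | ∃ f : V → ℝ, f ≠ 0 ∧ ∑ x, f x = 0 ∧ P.mulVec f = c • f}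

/-- Relaxation time `1 / (1 - λ₂)`. -/
def trel {V : Type} [Fintype V] (P : Matrix V V ℝ) : ℝ := 1 / (1 - lam2 P)

lemma walk_eq {G : Type} [AddCommGroup G] [DecidableEq G] (S : Finset G) :
    lazyWalk S = M (lz (1 / 2) S) := by
  ext a b
  simp only [lazyWalk, Matrix.of_apply, M, lz, unif, sub_eq_zero]
  norm_num

theorem result :
    ∃ (G : ℕ → Type) (_ : ∀ n, AddCommGroup (G n)) (_ : ∀ n, Fintype (G n))
      (_ : ∀ n, DecidableEq (G n)) (S : ∀ n, Finset (G n)),
      Tendsto (fun n => Fintype.card (G n)) atTop atTop ∧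
      (∀ n, 0 ∉ S n ∧ (∀ s ∈ S n, -s ∈ S n) ∧ AddSubgroup.closure (S n : Set (G n)) = ⊤) ∧
      (∀ n (c : ℝ) (f : G n → ℝ), f ≠ 0 → ∑ x, f x = 0 → (lazyWalk (S n)).mulVec f = c • f →
        |c| ≤ 3 / 4) ∧
      Tendsto (fun n => (tmix (lazyWalk (S n)) (1 / 4) : ℝ) / trel (lazyWalk (S n))) atTop atTop ∧
      (∀ n, 1 ≤ tmix (lazyWalk (S n)) (1 - 1 / 200) ∧
        2 * tmix (lazyWalk (S n)) (1 - 1 / 200) ≤ tmix (lazyWalk (S n)) (1 / 200)) ∧
      ¬ Tendsto (fun n => (tmix (lazyWalk (S n)) (1 / 200) : ℝ) / tmix (lazyWalk (S n)) (1 - 1 / 200))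
        atTop (𝓝 1) := by
  choose G i1 i2 i3 S h0 _ hn hP using fun n : ℕ => exists_pak (n + 201) (by omega)
  have P1 := fun n => hP n (1 / 2) (by norm_num) le_rfl
  have P0 := fun n => hP n 0 le_rfl (by norm_num)
  have key : ∀ n, 1 ≤ tm (M (lz (1 / 2) (S n))) (1 - 1 / 200) ∧
      2 * tm (M (lz (1 / 2) (S n))) (1 - 1 / 200) ≤ tm (M (lz (1 / 2) (S n))) (1 / 200) := fun n => by
    have a := (P1 n).tm_up (by omega)
    have b := (P1 n).tm_low (by omega) (ε := 1 / 200) (by norm_num) (by norm_num)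
    omega
  refine ⟨G, i1, i2, i3, S, tendsto_atTop_mono (fun n => ?_) tendsto_id,
    fun n => ⟨h0 n, hn n, ?_⟩, ?_⟩
  · exact le_trans (Nat.le_add_right n 201) (P1 n).card
  · rw [eq_top_iff]
    intro y _
    obtain ⟨a, ha, b, hb, e⟩ := closure_top (P0 n) (by omega) y
    rw [e]
    exact add_mem (AddSubgroup.subset_closure ha) (AddSubgroup.subset_closure hb)
  · simp only [walk_eq]
    refine ⟨fun n c f h1 h2 h3 => (P1 n).eig h1 h2 h3, prod_cond (fun n => ?_) fun n => (P1 n).l2_le,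
      key, no_cut key⟩
    have b := (P1 n).tm_low (by omega) (ε := 1 / 4) (by norm_num) (by norm_num)
    exact le_trans (by omega) b.le

end

end Pool.Agent.Results.MP_8d2225_pr.NoCutoff
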